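import Mathlib
import Pool.Agent.Helper59.SchattenOp

set_option autoImplicit false

open Module
open scoped ENNReal

namespace Pool.Agent.Results.MP_ddfcce_an.KolmogorovLower

/-- The singular values of a square matrix, as the square roots of the eigenvalues of `Aᴴ * A`
(with multiplicity, listed in no particular order). -/
noncomputable def sval {𝕜 : Type*} [RCLike 𝕜] {N : ℕ} (A : Matrix (Fin N) (Fin N) 𝕜)
    (j : Fin N) : ℝ :=
  √((Matrix.isHermitian_conjTranspose_mul_self A).eigenvalues j)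

/-- The Schatten (quasi-)norm of a square matrix for an exponent `0 < p ≤ ∞`: the `l_p`
(quasi-)norm of the singular values, and the largest singular value for `p = ∞`. -/
noncomputable def schatten {𝕜 : Type*} [RCLike 𝕜] {N : ℕ} (p : ℝ≥0∞)
    (A : Matrix (Fin N) (Fin N) 𝕜) : ℝ :=
  if p = ∞ then ⨆ j, sval A j else (∑ j, sval A j ^ p.toReal) ^ (1 / p.toReal)

/-- The distance of `A` to the subspace `L` in the `q`-Schatten (quasi-)norm. -/
noncomputable def distTo {𝕜 : Type*} [RCLike 𝕜] {N : ℕ} (q : ℝ≥0∞)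
    (L : Submodule 𝕜 (Matrix (Fin N) (Fin N) 𝕜)) (A : Matrix (Fin N) (Fin N) 𝕜) : ℝ≥0∞ :=
  ⨅ B ∈ L, ENNReal.ofReal (schatten q (A - B))

/-- The `n`-th Kolmogorov number of the identity map from `S_p^N` to `S_q^N` over `𝕜`. -/
noncomputable def kolmogorov (𝕜 : Type*) [RCLike 𝕜] (N n : ℕ) (p q : ℝ≥0∞) : ℝ≥0∞ :=
  ⨅ (L : Submodule 𝕜 (Matrix (Fin N) (Fin N) 𝕜)) (_ : finrank 𝕜 L < n),
    ⨆ (A : Matrix (Fin N) (Fin N) 𝕜) (_ : schatten p A ≤ 1), distTo q L A

/-- matrices as bounded operators on Euclidean space -/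
noncomputable def toOp (𝕜 : Type*) [RCLike 𝕜] (N : ℕ) : Matrix (Fin N) (Fin N) 𝕜 ≃ₗ[𝕜]
    (EuclideanSpace 𝕜 (Fin N) →L[𝕜] EuclideanSpace 𝕜 (Fin N)) :=
  Matrix.toEuclideanLin ≪≫ₗ LinearMap.toContinuousLinearMap

lemma eigenvalues_congr {𝕜 : Type*} [RCLike 𝕜] {E : Type*} [NormedAddCommGroup E]
    [InnerProductSpace 𝕜 E] [FiniteDimensional 𝕜 E] {S T : E →ₗ[𝕜] E} (hS : S.IsSymmetric)
    (hT : T.IsSymmetric) (h : S = T) {n : ℕ} (hn : finrank 𝕜 E = n) (i : Fin n) :
    hS.eigenvalues hn i = hT.eigenvalues hn i := by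
  subst h; rfl

lemma adj_comp {𝕜 : Type*} [RCLike 𝕜] {N : ℕ} (A : Matrix (Fin N) (Fin N) 𝕜) :
    Matrix.toEuclideanLin (A.conjTranspose * A)
      = LinearMap.adjoint (Matrix.toEuclideanLin A) ∘ₗ Matrix.toEuclideanLin A := by
  rw [← Matrix.toEuclideanLin_conjTranspose_eq_adjoint]
  ext x
  simp [Matrix.toLpLin_apply]

lemma sval_eq {𝕜 : Type*} [RCLike 𝕜] {N : ℕ} (A : Matrix (Fin N) (Fin N) 𝕜) (j : Fin N) :
    sval A j = Helper59.sv (toOp 𝕜 N A)
      ((Fintype.equivOfCardEq (Fintype.card_fin (Fintype.card (Fin N)))).symm j : ℕ) := by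
  have h1 : Helper59.sv (toOp 𝕜 N A)
      ((Fintype.equivOfCardEq (Fintype.card_fin (Fintype.card (Fin N)))).symm j : ℕ)
      = (Matrix.toEuclideanLin A).singularValues
      ((Fintype.equivOfCardEq (Fintype.card_fin (Fintype.card (Fin N)))).symm j : ℕ) := rfl
  have h2 := LinearMap.singularValues_fin (Matrix.toEuclideanLin A) finrank_euclideanSpace
    ((Fintype.equivOfCardEq (Fintype.card_fin (Fintype.card (Fin N)))).symm j)
  refine Eq.trans ?_ (h1.trans h2).symm
  unfold sval Matrix.IsHermitian.eigenvalues Matrix.IsHermitian.eigenvalues₀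
  exact congrArg Real.sqrt (eigenvalues_congr _ _ (adj_comp A) _ _)

lemma schatten_eq {𝕜 : Type*} [RCLike 𝕜] {N : ℕ} (p : ℝ≥0∞) (A : Matrix (Fin N) (Fin N) 𝕜) :
    schatten p A = Helper59.sch p (toOp 𝕜 N A) := by
  have hcard : Fintype.card (Fin N) = N := Fintype.card_fin N
  rw [schatten, Helper59.sch]
  simp only [sval_eq, finrank_euclideanSpace]
  split_ifs with hp
  · rcases Nat.eq_zero_or_pos N with h0 | h0
    · subst h0
      rw [Real.iSup_of_isEmpty, Helper59.sv_eq_zero _ (by simp)]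
    · have : Nonempty (Fin N) := ⟨⟨0, h0⟩⟩
      apply le_antisymm
      · exact ciSup_le fun j => Helper59.sv_anti _ (Nat.zero_le _)
      · have := le_ciSup (f := fun j => Helper59.sv (toOp 𝕜 N A)
          ((Fintype.equivOfCardEq (Fintype.card_fin (Fintype.card (Fin N)))).symm j : ℕ))
          (Set.finite_range _).bddAbove
          (Fintype.equivOfCardEq (Fintype.card_fin (Fintype.card (Fin N))) ⟨0, by omega⟩)
        simpa using this
  · congr 1
    rw [Finset.sum_range]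
    exact Equiv.sum_comp (Fintype.equivOfCardEq (Fintype.card_fin (Fintype.card (Fin N)))).symm
      (fun i : Fin (Fintype.card (Fin N)) => Helper59.sv (toOp 𝕜 N A) i ^ p.toReal)

theorem result (𝕜 : Type*) [RCLike 𝕜] (p q : ℝ≥0∞) (hq : 0 < q) (hqp : q ≤ p) :
    ∃ c : ℝ, 0 < c ∧ ∀ N n : ℕ, 1 ≤ n → n ≤ N ^ 2 →
      ENNReal.ofReal (c * max 1 (((N : ℝ) ^ 2 - n + 1) / N) ^ ((q⁻¹).toReal - (p⁻¹).toReal))
        ≤ kolmogorov 𝕜 N n p q := by
  set σ : ℝ := (q⁻¹).toReal - (p⁻¹).toReal with hσ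
  have hσ0 : 0 ≤ σ := by
    have h1 : p⁻¹ ≤ q⁻¹ := ENNReal.inv_le_inv.2 hqp
    have h2 : q⁻¹ ≠ ∞ := ENNReal.inv_ne_top.2 hq.ne'
    have := ENNReal.toReal_mono h2 h1
    linarith
  set a : ℕ := 4 * (⌈1 / q.toReal⌉₊ + 2) with ha
  have ha0 : (0 : ℝ) < a := by rw [ha]; positivity
  have hC := Helper59.Cp_pos p
  set c : ℝ := min (1 / (2 * Helper59.Cp p)) (1 / 2) * (2 * (a : ℝ)) ^ (-σ) with hc
  have hcpos : 0 < c := by positivity
  refine ⟨c, hcpos, fun N n hn1 hn2 => ?_⟩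
  have hN : 0 < N := by
    rcases Nat.eq_zero_or_pos N with h | h
    · subst h; simp at hn2; omega
    · exact h
  have hNr : (0 : ℝ) < N := by exact_mod_cast hN
  set m : ℝ := ((N : ℝ) ^ 2 - n + 1) / N with hm
  have hKr : ((N : ℝ) ^ 2 - n + 1) = ((N ^ 2 - n + 1 : ℕ) : ℝ) := by
    push_cast [Nat.cast_sub hn2]; ring
  refine le_iInf₂ fun L hL => ?_
  by_contra hcon
  push Not at hcon
  set δ : ℝ := c * max 1 m ^ σ with hδ
  have hX : 0 < max 1 m ^ σ := by positivity
  have hδ0 : 0 < δ := by positivity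
  have hyp : ∀ T : EuclideanSpace 𝕜 (Fin N) →L[𝕜] EuclideanSpace 𝕜 (Fin N),
      Helper59.sch p T ≤ 1 → ∃ B ∈ L.map (toOp 𝕜 N).toLinearMap, Helper59.sch q (T - B) ≤ δ := by
    intro T hT
    obtain ⟨A, rfl⟩ := (toOp 𝕜 N).surjective T
    rw [← schatten_eq] at hT
    have h1 : distTo q L A < ENNReal.ofReal δ :=
      lt_of_le_of_lt (le_iSup₂_of_le A hT le_rfl) hcon
    simp only [distTo, iInf_lt_iff] at h1
    obtain ⟨B, hB, h2⟩ := h1
    refine ⟨toOp 𝕜 N B, ⟨B, hB, rfl⟩, ?_⟩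
    rw [← map_sub, ← schatten_eq]
    exact ((ENNReal.ofReal_lt_ofReal_iff hδ0).1 h2).le
  have hfr : finrank 𝕜 (L.map (toOp 𝕜 N).toLinearMap) = finrank 𝕜 L :=
    LinearEquiv.finrank_map_eq (toOp 𝕜 N) L
  have hE : finrank 𝕜 (EuclideanSpace 𝕜 (Fin N) →L[𝕜] EuclideanSpace 𝕜 (Fin N)) = N ^ 2 := by
    rw [Helper59.finrank_clm, finrank_euclideanSpace, Fintype.card_fin, sq]
  have hK : N ^ 2 - n + 1 ≤ finrank 𝕜 (EuclideanSpace 𝕜 (Fin N) →L[𝕜] EuclideanSpace 𝕜 (Fin N)) -
      finrank 𝕜 (L.map (toOp 𝕜 N).toLinearMap) := by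
    rw [hE, hfr]; omega
  have htriv : 1 ≤ δ := Helper59.trivial_step hq hqp _ hδ0 hyp (by omega)
  by_cases hbig : m ≤ 2 * a
  · -- small codimension
    have h1 : max 1 m ≤ 2 * a := by
      refine max_le ?_ hbig
      rw [ha]; push_cast
      have : (0 : ℝ) ≤ (⌈1 / q.toReal⌉₊ : ℝ) := by positivity
      linarith
    have h2 : max 1 m ^ σ ≤ (2 * (a : ℝ)) ^ σ := Real.rpow_le_rpow (by positivity) h1 hσ0
    have h3 : δ ≤ 1 / 2 := by
      calc δ ≤ (1 / 2 * (2 * (a : ℝ)) ^ (-σ)) * (2 * (a : ℝ)) ^ σ := by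
            rw [hδ, hc]
            gcongr
            exact min_le_right _ _
        _ = 1 / 2 := by
            rw [mul_assoc, ← Real.rpow_add (by positivity)]; simp
    linarith
  · push Not at hbig
    have hm1 : 1 ≤ m := by
      have : (1 : ℝ) ≤ 2 * a := by
        rw [ha]; push_cast
        have : (0 : ℝ) ≤ (⌈1 / q.toReal⌉₊ : ℝ) := by positivity
        linarith
      linarith
    -- choose J maximal
    set K : ℕ := N ^ 2 - n + 1 with hKdef
    have hmK : m * N = K := by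
      rw [hm, hKr]; field_simp
    have hex : ∃ J : ℕ, K ≤ a * N * 2 ^ (J + 1) := by
      refine ⟨K, ?_⟩
      have h1 : K < 2 ^ (K + 1) := Nat.lt_pow_self (by norm_num) |>.trans (Nat.pow_lt_pow_right (by norm_num) (Nat.lt_succ_self K))
      have h2 : 1 ≤ a * N := by
        have : 0 < a := by exact_mod_cast ha0
        exact Nat.mul_pos this hN
      nlinarith
    classical
    set J := Nat.find hex with hJ
    have hJ1 : K ≤ a * N * 2 ^ (J + 1) := Nat.find_spec hex
    have hJ2 : a * N * 2 ^ J < K := by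
      rcases Nat.eq_zero_or_pos J with h0 | h0
      · rw [h0, pow_zero, mul_one]
        have h1 : (a : ℝ) * N < K := by
          rw [← hmK]
          have : (a : ℝ) < m := by linarith
          gcongr
        exact_mod_cast h1
      · have h1 := Nat.find_min hex (m := J - 1) (by omega)
        push Not at h1
        have h2 : J - 1 + 1 = J := by omega
        rwa [h2] at h1
    have hqp' : q < p := by
      rcases hqp.eq_or_lt with h | h
      · -- then σ = 0 and δ ≤ 1/2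
        exfalso
        have hσz : σ = 0 := by rw [hσ, h]; ring
        have : δ ≤ 1 / 2 := by
          rw [hδ, hc, hσz]
          simp only [neg_zero, Real.rpow_zero, mul_one]
          exact min_le_right _ _
        linarith
      · exact h
    have hstep := Helper59.main_step hq hqp' _ hδ0 hyp J (by
      refine lt_of_lt_of_le ?_ hK
      rw [finrank_euclideanSpace, Fintype.card_fin]
      exact hJ2)
    -- 2 ^ J ≥ m / (2 a)
    have h5 : m ≤ 2 * a * 2 ^ J := by
      have h6 : (K : ℝ) ≤ a * N * 2 ^ (J + 1) := by exact_mod_cast hJ1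
      rw [← hmK] at h6
      have h7 : m * N ≤ (2 * a * 2 ^ J) * N := by
        refine h6.trans (le_of_eq ?_)
        rw [pow_succ]; ring
      exact le_of_mul_le_mul_right h7 hNr
    have h8 : m ^ σ ≤ (2 * (a : ℝ)) ^ σ * (2 : ℝ) ^ (J * σ) := by
      calc m ^ σ ≤ (2 * a * 2 ^ J) ^ σ := Real.rpow_le_rpow (by positivity) h5 hσ0
        _ = _ := by
          rw [Real.mul_rpow (by positivity) (by positivity), ← Real.rpow_natCast,
            ← Real.rpow_mul (by norm_num)]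
    have h9 : δ ≤ 1 / (2 * Helper59.Cp p) * (2 : ℝ) ^ (J * σ) := by
      rw [hδ, max_eq_right hm1]
      calc c * m ^ σ ≤ (1 / (2 * Helper59.Cp p) * (2 * (a : ℝ)) ^ (-σ)) *
            ((2 * (a : ℝ)) ^ σ * (2 : ℝ) ^ (J * σ)) := by
            rw [hc]
            gcongr
            exact min_le_left _ _
        _ = 1 / (2 * Helper59.Cp p) * ((2 * (a : ℝ)) ^ (-σ) * (2 * (a : ℝ)) ^ σ) *
            (2 : ℝ) ^ (J * σ) := by ring
        _ = _ := by
            rw [← Real.rpow_add (by positivity)]; simp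
    have h10 : Helper59.Cp p * δ * (2 : ℝ) ^ (-(J * σ)) ≤ 1 / 2 := by
      calc Helper59.Cp p * δ * (2 : ℝ) ^ (-(J * σ))
          ≤ Helper59.Cp p * (1 / (2 * Helper59.Cp p) * (2 : ℝ) ^ (J * σ)) *
            (2 : ℝ) ^ (-(J * σ)) := by gcongr
        _ = 1 / 2 * ((2 : ℝ) ^ (J * σ) * (2 : ℝ) ^ (-(J * σ))) := by
            field_simp
        _ = 1 / 2 := by rw [← Real.rpow_add (by norm_num)]; simp
    linarith

end Pool.Agent.Results.MP_ddfcce_an.KolmogorovLower
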